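import Mathlib

/-!
A topological group in which every countable subgroup has compact closure and in which
player O (not only: P has no stationary winning strategy) wins the
selectively sequentially pseudocompact game.
-/

namespace Pool.Agent.Results.MP_13df43_gt.OWinsOnCountablySupported

/-- The points played by P before round `n`, the latest one first. -/
def hist {X : Type} (x : ℕ → X) : ℕ → List X
  | 0 => []
  | n + 1 => x n :: hist x n

/-- Player O has a winning strategy in the game Ssp(X): a nonempty open set is assigned to each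
finite list of earlier points of P, and no play of P against it has a convergent subsequence. -/
def OWins (X : Type) [TopologicalSpace X] : Prop :=
  ∃ σ : List X → Set X, (∀ l, IsOpen (σ l) ∧ (σ l).Nonempty) ∧
    ∀ x : ℕ → X, (∀ n, x n ∈ σ (hist x n)) →
      ¬ ∃ φ : ℕ → ℕ, StrictMono φ ∧
        ∃ y : X, Filter.Tendsto (fun k => x (φ k)) Filter.atTop (nhds y)

/-- Player P has a stationary winning strategy in Ssp(X). -/
def PStationaryWins (X : Type) [TopologicalSpace X] : Prop :=
  ∃ s : Set X → X, (∀ U, IsOpen U → U.Nonempty → s U ∈ U) ∧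
    ∀ U : ℕ → Set X, (∀ n, IsOpen (U n) ∧ (U n).Nonempty) →
      ∃ φ : ℕ → ℕ, StrictMono φ ∧
        ∃ y : X, Filter.Tendsto (fun k => s (U (φ k))) Filter.atTop (nhds y)

theorem not_pStationaryWins {X : Type} [TopologicalSpace X] (h : OWins X) :
    ¬ PStationaryWins X := by
  rintro ⟨s, hs, hw⟩
  obtain ⟨σ, hσ, hO⟩ := h
  let l : ℕ → List X := fun n => Nat.rec [] (fun _ t => s (σ t) :: t) n
  let x : ℕ → X := fun n => s (σ (l n))
  have hl : ∀ n, hist x n = l n := by
    intro n
    induction n with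
    | zero => rfl
    | succ n ih =>
      change x n :: hist x n = s (σ (l n)) :: l n
      rw [ih]
  refine hO x (fun n => ?_) ?_
  · rw [hl]
    exact hs _ (hσ _).1 (hσ _).2
  · exact hw (fun n => σ (l n)) (fun n => hσ _)

/-- The function with value `-1` on `S` and `1` elsewhere. -/
noncomputable def ind (S : Set ℝ) : ℝ → ℤˣ :=
  fun a => open Classical in if a ∈ S then -1 else 1

theorem ind_mul {S T : Set ℝ} (h : Disjoint S T) : ind S * ind T = ind (S ∪ T) := by
  funext a
  by_cases h1 : a ∈ S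
  · have h2 : a ∉ T := Set.disjoint_left.1 h h1
    simp [ind, h1, h2]
  · by_cases h2 : a ∈ T
    · simp [ind, h1, h2]
    · simp [ind, h1, h2]

/-- The group of all multiplicative maps `(ℝ → ℤˣ) → ℤˣ` with a countable support, with the
topology of pointwise convergence. -/
def G : Subgroup ((ℝ → ℤˣ) → ℤˣ) where
  carrier := {φ | (∀ f g, φ (f * g) = φ f * φ g) ∧
    ∃ A : Set ℝ, A.Countable ∧ ∀ f, (∀ a ∈ A, f a = 1) → φ f = 1}
  mul_mem' := by
    rintro φ ψ ⟨h1, A, hA, h2⟩ ⟨h3, B, hB, h4⟩
    refine ⟨fun f g => ?_, A ∪ B, hA.union hB, fun f hf => ?_⟩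
    · simp only [Pi.mul_apply, h1, h3]
      exact mul_mul_mul_comm _ _ _ _
    · simp only [Pi.mul_apply]
      rw [h2 f (fun a ha => hf a (Or.inl ha)), h4 f (fun a ha => hf a (Or.inr ha)), one_mul]
  one_mem' := ⟨fun f g => by simp, ∅, Set.countable_empty, fun f _ => rfl⟩
  inv_mem' := by
    rintro φ ⟨h1, A, hA, h2⟩
    refine ⟨fun f g => ?_, A, hA, fun f hf => ?_⟩
    · simp only [Pi.inv_apply, h1, mul_inv]
    · simp only [Pi.inv_apply, h2 f hf, inv_one]

theorem G_mul (φ : G) (f g : ℝ → ℤˣ) : φ.1 (f * g) = φ.1 f * φ.1 g := φ.2.1 f g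

/-- A countable support of an element of `G`. -/
noncomputable def supp (φ : G) : Set ℝ := Classical.choose φ.2.2

theorem supp_countable (φ : G) : (supp φ).Countable := (Classical.choose_spec φ.2.2).1

theorem supp_spec (φ : G) (f : ℝ → ℤˣ) (h : ∀ a ∈ supp φ, f a = 1) : φ.1 f = 1 :=
  (Classical.choose_spec φ.2.2).2 f h

theorem closure_compact (H : Subgroup G) (hH : (H : Set G).Countable) :
    IsCompact (closure (H : Set G)) := by
  let A : Set ℝ := ⋃ h ∈ (H : Set G), supp h
  have hA : A.Countable := hH.biUnion (fun h _ => supp_countable h)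
  let C : Set G := {φ | ∀ f : ℝ → ℤˣ, (∀ a ∈ A, f a = 1) → φ.1 f = 1}
  have hC : IsClosed C := by
    have : C = ⋂ f : ℝ → ℤˣ, ⋂ _ : (∀ a ∈ A, f a = 1), {φ : G | φ.1 f = 1} := by
      ext φ
      simp [C]
    rw [this]
    refine isClosed_iInter (fun f => isClosed_iInter (fun _ => ?_))
    exact isClosed_eq ((continuous_apply f).comp continuous_subtype_val) continuous_const
  have hHC : (H : Set G) ⊆ C := by
    intro h hh f hf
    exact supp_spec h f (fun a ha => hf a (Set.mem_biUnion hh ha))
  have hK : IsCompact C := by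
    rw [Topology.IsEmbedding.subtypeVal.isCompact_iff]
    have himg : (Subtype.val '' C) = {φ : (ℝ → ℤˣ) → ℤˣ | (∀ f g, φ (f * g) = φ f * φ g) ∧
        ∀ f : ℝ → ℤˣ, (∀ a ∈ A, f a = 1) → φ f = 1} := by
      ext φ
      constructor
      · rintro ⟨ψ, hψ, rfl⟩
        exact ⟨ψ.2.1, hψ⟩
      · rintro ⟨h1, h2⟩
        exact ⟨⟨φ, h1, A, hA, h2⟩, h2, rfl⟩
    rw [himg]
    apply IsClosed.isCompact
    have : {φ : (ℝ → ℤˣ) → ℤˣ | (∀ f g, φ (f * g) = φ f * φ g) ∧
        ∀ f : ℝ → ℤˣ, (∀ a ∈ A, f a = 1) → φ f = 1} =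
        (⋂ f : ℝ → ℤˣ, ⋂ g : ℝ → ℤˣ, {φ : (ℝ → ℤˣ) → ℤˣ | φ (f * g) = φ f * φ g}) ∩
        ⋂ f : ℝ → ℤˣ, ⋂ _ : (∀ a ∈ A, f a = 1), {φ : (ℝ → ℤˣ) → ℤˣ | φ f = 1} := by
      ext φ
      simp
    rw [this]
    refine IsClosed.inter ?_ ?_
    · refine isClosed_iInter (fun f => isClosed_iInter (fun g => ?_))
      exact isClosed_eq (continuous_apply _) ((continuous_apply f).mul (continuous_apply g))
    · refine isClosed_iInter (fun f => isClosed_iInter (fun _ => ?_))
      exact isClosed_eq (continuous_apply f) continuous_const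
  exact hK.of_isClosed_subset isClosed_closure (closure_minimal hHC hC)

/-- Evaluation at a point as an element of `G`. -/
def ev (a : ℝ) : G :=
  ⟨fun f => f a, fun _ _ => rfl, {a}, Set.countable_singleton a, fun _ hf => hf a rfl⟩

/-- A point outside a countable set. -/
noncomputable def pick (C : Set ℝ) : ℝ :=
  open Classical in if h : ∃ a, a ∉ C then Classical.choose h else 0

theorem pick_notMem {C : Set ℝ} (hC : C.Countable) : pick C ∉ C := by
  have h : ∃ a, a ∉ C := by
    by_contra h
    push Not at h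
    have : C = Set.univ := Set.eq_univ_of_forall h
    rw [this] at hC
    exact Set.not_countable_univ hC
  unfold pick
  rw [dif_pos h]
  exact Classical.choose_spec h

/-- The points chosen by O along a history. -/
noncomputable def picks : List G → List ℝ
  | [] => []
  | φ :: l => pick ({a | a ∈ picks l} ∪ supp φ ∪ ⋃ ψ ∈ {ψ | ψ ∈ l}, supp ψ) :: picks l

theorem countable_aux (φ : G) (l : List G) :
    ({a | a ∈ picks l} ∪ supp φ ∪ ⋃ ψ ∈ {ψ | ψ ∈ l}, supp ψ).Countable := by
  refine ((List.finite_toSet _).countable.union (supp_countable φ)).union ?_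
  exact (List.finite_toSet l).countable.biUnion (fun ψ _ => supp_countable ψ)

theorem picks_cons_spec (φ : G) (l : List G) (a : ℝ) (t : List ℝ)
    (h : picks (φ :: l) = a :: t) :
    t = picks l ∧ a ∉ picks l ∧ a ∉ supp φ ∧ ∀ ψ ∈ l, a ∉ supp ψ := by
  have h' : pick ({a | a ∈ picks l} ∪ supp φ ∪ ⋃ ψ ∈ {ψ | ψ ∈ l}, supp ψ) :: picks l = a :: t := h
  rw [List.cons.injEq] at h'
  obtain ⟨h1, h2⟩ := h'
  have h3 := pick_notMem (countable_aux φ l)
  rw [h1] at h3
  refine ⟨h2.symm, fun h4 => h3 (Or.inl (Or.inl h4)), fun h4 => h3 (Or.inl (Or.inr h4)),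
    fun ψ hψ h4 => h3 (Or.inr (Set.mem_biUnion hψ h4))⟩

/-- The move of O for a given list of chosen points. -/
noncomputable def moveOf : List ℝ → Set G
  | [] => Set.univ
  | a :: t => {φ | φ.1 (ind {a}) = -1 ∧ ∀ b ∈ t, φ.1 (ind {b}) = 1}

theorem isOpen_moveOf (t : List ℝ) : IsOpen (moveOf t) := by
  cases t with
  | nil => exact isOpen_univ
  | cons a t =>
    have h0 : ∀ (b : ℝ) (u : ℤˣ), IsOpen {φ : G | φ.1 (ind {b}) = u} := by
      intro b u
      have hc : Continuous (fun φ : G => φ.1 (ind {b})) :=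
        (continuous_apply _).comp continuous_subtype_val
      exact (isOpen_discrete ({u} : Set ℤˣ)).preimage hc
    have : moveOf (a :: t) = {φ : G | φ.1 (ind {a}) = -1} ∩
        ⋂ b ∈ {b | b ∈ t}, {φ : G | φ.1 (ind {b}) = 1} := by
      ext φ
      simp [moveOf]
    rw [this]
    exact (h0 a (-1)).inter ((List.finite_toSet t).isOpen_biInter (fun b _ => h0 b 1))

theorem moveOf_nonempty (l : List G) : (moveOf (picks l)).Nonempty := by
  cases l with
  | nil => exact ⟨1, trivial⟩
  | cons φ l =>
    obtain ⟨a, t, hat⟩ : ∃ a t, picks (φ :: l) = a :: t := ⟨_, _, rfl⟩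
    obtain ⟨h1, h2, -, -⟩ := picks_cons_spec φ l a t hat
    rw [hat]
    refine ⟨ev a, ?_, fun b hb => ?_⟩
    · simp [ev, ind]
    · have hne : a ≠ b := by
        rintro rfl
        rw [h1] at hb
        exact h2 hb
      simp [ev, ind, hne]

theorem oWins : OWins G := by
  refine ⟨fun l => moveOf (picks l), fun l => ⟨isOpen_moveOf _, moveOf_nonempty l⟩, ?_⟩
  intro x hx
  rintro ⟨θ, hθ, y, hy⟩
  -- the points chosen by O
  let a : ℕ → ℝ := fun n =>
    pick ({a | a ∈ picks (hist x n)} ∪ supp (x n) ∪ ⋃ ψ ∈ {ψ | ψ ∈ hist x n}, supp ψ)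
  have hpicks : ∀ n, picks (hist x (n + 1)) = a n :: picks (hist x n) := fun n => rfl
  have hmem : ∀ n b, b ∈ picks (hist x n) ↔ ∃ k < n, a k = b := by
    intro n
    induction n with
    | zero =>
      intro b
      simp [hist, picks]
    | succ n ih =>
      intro b
      rw [hpicks, List.mem_cons, ih]
      constructor
      · rintro (h | ⟨k, hk, h⟩)
        · exact ⟨n, Nat.lt_succ_self n, h.symm⟩
        · exact ⟨k, Nat.lt_succ_of_lt hk, h⟩
      · rintro ⟨k, hk, h⟩
        rcases Nat.lt_succ_iff_lt_or_eq.1 hk with h1 | h1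
        · exact Or.inr ⟨k, h1, h⟩
        · left
          rw [← h, h1]
  have hhist : ∀ n k, k < n → x k ∈ hist x n := by
    intro n
    induction n with
    | zero =>
      intro k hk
      omega
    | succ n ih =>
      intro k hk
      rcases Nat.lt_succ_iff_lt_or_eq.1 hk with h1 | h1
      · exact List.mem_cons_of_mem _ (ih k h1)
      · rw [h1]
        exact List.mem_cons_self
  have hspec := fun n => picks_cons_spec (x n) (hist x n) (a n) (picks (hist x n)) (hpicks n)
  -- the chosen points are distinct and avoid the earlier supports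
  have hinj : ∀ k n, k < n → a k ≠ a n := by
    intro k n hkn h
    exact (hspec n).2.1 ((hmem n (a n)).2 ⟨k, hkn, h⟩)
  have hsupp : ∀ k n, k ≤ n → a n ∉ supp (x k) := by
    intro k n hkn
    rcases Nat.lt_or_ge k n with h | h
    · exact (hspec n).2.2.2 _ (hhist n k h)
    · have : k = n := le_antisymm hkn h
      rw [this]
      exact (hspec n).2.2.1
  have hval : ∀ n, (x (n + 1)).1 (ind {a n}) = -1 ∧
      ∀ k < n, (x (n + 1)).1 (ind {a k}) = 1 := by
    intro n
    have h := hx (n + 1)
    beta_reduce at h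
    rw [hpicks] at h
    obtain ⟨h1, h2⟩ := h
    exact ⟨h1, fun k hk => h2 _ ((hmem n (a k)).2 ⟨k, hk, rfl⟩)⟩
  -- the value on the function attached to a set of indices
  have hind : ∀ (S : Set ℕ) (m : ℕ) (n : ℕ), m ≤ n →
      (x (n + 1)).1 (ind (a '' {k | k ∈ S ∧ k < m})) = 1 := by
    intro S m
    induction m with
    | zero =>
      intro n _
      have : a '' {k | k ∈ S ∧ k < 0} = ∅ := by
        ext b
        simp
      rw [this]
      exact supp_spec _ _ (fun b _ => by simp [ind])
    | succ m ih =>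
      intro n hmn
      by_cases hm : m ∈ S
      · have h1 : a '' {k | k ∈ S ∧ k < m + 1} = {a m} ∪ a '' {k | k ∈ S ∧ k < m} := by
          ext b
          constructor
          · rintro ⟨k, ⟨hk, hk2⟩, rfl⟩
            rcases Nat.lt_succ_iff_lt_or_eq.1 hk2 with h | h
            · exact Or.inr ⟨k, ⟨hk, h⟩, rfl⟩
            · left
              rw [h]
              rfl
          · rintro (h | ⟨k, ⟨hk, hk2⟩, rfl⟩)
            · exact ⟨m, ⟨hm, Nat.lt_succ_self m⟩, h.symm⟩
            · exact ⟨k, ⟨hk, Nat.lt_succ_of_lt hk2⟩, rfl⟩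
        have hdis : Disjoint ({a m} : Set ℝ) (a '' {k | k ∈ S ∧ k < m}) := by
          rw [Set.disjoint_singleton_left]
          rintro ⟨k, ⟨-, hk⟩, h⟩
          exact hinj k m hk h
        rw [h1, ← ind_mul hdis, G_mul, ih n (by omega), mul_one]
        exact (hval n).2 m (by omega)
      · have h1 : a '' {k | k ∈ S ∧ k < m + 1} = a '' {k | k ∈ S ∧ k < m} := by
          congr 1
          ext k
          constructor
          · rintro ⟨hk, hk2⟩
            refine ⟨hk, ?_⟩
            rcases Nat.lt_succ_iff_lt_or_eq.1 hk2 with h | h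
            · exact h
            · exact absurd (h ▸ hk) hm
          · rintro ⟨hk, hk2⟩
            exact ⟨hk, Nat.lt_succ_of_lt hk2⟩
        rw [h1]
        exact ih n (by omega)
  have hfull : ∀ (S : Set ℕ) (n : ℕ), (x (n + 1)).1 (ind (a '' S)) =
      open Classical in if n ∈ S then -1 else 1 := by
    intro S n
    -- the part of `S` from `n + 1` on does not matter
    have hsplit : a '' S = a '' {k | k ∈ S ∧ k < n} ∪ (a '' {k | k ∈ S ∧ k = n} ∪
        a '' {k | k ∈ S ∧ n < k}) := by
      rw [← Set.image_union, ← Set.image_union]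
      congr 1
      ext k
      constructor
      · intro hk
        rcases lt_trichotomy k n with h | h | h
        · exact Or.inl ⟨hk, h⟩
        · exact Or.inr (Or.inl ⟨hk, h⟩)
        · exact Or.inr (Or.inr ⟨hk, h⟩)
      · rintro (h | h | h)
        · exact h.1
        · exact h.1
        · exact h.1
    have hainj : ∀ j k, a j = a k → j = k := by
      intro j k h
      rcases lt_trichotomy j k with h1 | h1 | h1
      · exact absurd h (hinj j k h1)
      · exact h1
      · exact absurd h.symm (hinj k j h1)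
    have hd1 : Disjoint (a '' {k | k ∈ S ∧ k < n}) (a '' {k | k ∈ S ∧ k = n} ∪
        a '' {k | k ∈ S ∧ n < k}) := by
      rw [Set.disjoint_left]
      rintro b ⟨k, ⟨-, hk⟩, rfl⟩ (⟨j, ⟨-, hj⟩, h⟩ | ⟨j, ⟨-, hj⟩, h⟩)
      · have := hainj _ _ h
        omega
      · have := hainj _ _ h
        omega
    have hd2 : Disjoint (a '' {k | k ∈ S ∧ k = n}) (a '' {k | k ∈ S ∧ n < k}) := by
      rw [Set.disjoint_left]
      rintro b ⟨k, ⟨-, hk⟩, rfl⟩ ⟨j, ⟨-, hj⟩, h⟩
      have := hainj _ _ h
      omega
    rw [hsplit, ← ind_mul hd1, ← ind_mul hd2, G_mul, G_mul, hind S n n le_rfl, one_mul]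
    have h3 : (x (n + 1)).1 (ind (a '' {k | k ∈ S ∧ n < k})) = 1 := by
      apply supp_spec
      intro b hb
      have : b ∉ a '' {k | k ∈ S ∧ n < k} := by
        rintro ⟨k, ⟨-, hk⟩, rfl⟩
        exact hsupp (n + 1) k (by omega) hb
      simp only [ind]
      rw [if_neg this]
    rw [h3, mul_one]
    by_cases hn : n ∈ S
    · have : a '' {k | k ∈ S ∧ k = n} = {a n} := by
        ext b
        constructor
        · rintro ⟨k, ⟨-, rfl⟩, rfl⟩
          rfl
        · rintro h
          exact ⟨n, ⟨hn, rfl⟩, h.symm⟩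
      rw [this, (hval n).1, if_pos hn]
    · have : a '' {k | k ∈ S ∧ k = n} = ∅ := by
        ext b
        constructor
        · rintro ⟨k, ⟨hk, rfl⟩, rfl⟩
          exact absurd hk hn
        · intro h
          exact absurd h (Set.notMem_empty b)
      rw [this, if_neg hn]
      exact supp_spec _ _ (fun b _ => by simp [ind])
  -- the contradiction
  let S : Set ℕ := {n | ∃ k, n + 1 = θ (2 * k)}
  have ht : Filter.Tendsto (fun k => (x (θ k)).1 (ind (a '' S))) Filter.atTop
      (nhds (y.1 (ind (a '' S)))) := by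
    have hc : Continuous (fun φ : G => φ.1 (ind (a '' S))) :=
      (continuous_apply _).comp continuous_subtype_val
    exact (hc.tendsto y).comp hy
  have hev : ∀ᶠ k in Filter.atTop, (x (θ k)).1 (ind (a '' S)) = y.1 (ind (a '' S)) := by
    have := ht (mem_nhds_discrete.2 (Set.mem_singleton _))
    exact this
  obtain ⟨N, hN⟩ := Filter.eventually_atTop.1 hev
  have hθpos : ∀ k, 0 < k → 0 < θ k := fun k hk => lt_of_le_of_lt (Nat.zero_le _) (hθ hk)
  have h1 := hN (2 * (N + 1)) (by omega)
  have h2 := hN (2 * (N + 1) + 1) (by omega)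
  obtain ⟨p, hp⟩ := Nat.exists_eq_succ_of_ne_zero (hθpos (2 * (N + 1)) (by omega)).ne'
  obtain ⟨q, hq⟩ := Nat.exists_eq_succ_of_ne_zero (hθpos (2 * (N + 1) + 1) (by omega)).ne'
  rw [hp, Nat.succ_eq_add_one, hfull, if_pos (show p ∈ S from ⟨N + 1, hp.symm⟩)] at h1
  have hqS : q ∉ S := by
    rintro ⟨k, hk⟩
    have h3 : θ (2 * k) = θ (2 * (N + 1) + 1) := by
      rw [hq, ← hk]
    have := hθ.injective h3
    omega
  rw [hq, Nat.succ_eq_add_one, hfull, if_neg hqS, ← h1] at h2
  exact absurd h2 (by decide)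

/-- There is a Hausdorff topological group in which the closure of every countable subgroup is
compact, but in which player O has a winning strategy in the game Ssp; in particular player P
has no stationary winning strategy. -/
theorem result : ∃ (G : Type) (_ : Group G) (_ : TopologicalSpace G),
    IsTopologicalGroup G ∧ T2Space G ∧
    (∀ H : Subgroup G, (H : Set G).Countable → IsCompact (closure (H : Set G))) ∧
    OWins G ∧ ¬ PStationaryWins G :=
  ⟨G, inferInstance, inferInstance, inferInstance, inferInstance, closure_compact, oWins,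
    not_pStationaryWins oWins⟩

end Pool.Agent.Results.MP_13df43_gt.OWinsOnCountablySupported
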